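import Pool.Agent.H5.RPG.Stmts

/-!
Row CNB of board rpg: the number of bad graphs.
-/

set_option autoImplicit false

namespace Pool.RPG

theorem cnb_num (n d a z : ℕ) (κ : ℝ) (hκ : 0 < κ) (hn : 0 < n) (ha : κ * n ≤ a) (ha2 : a ≤ n)
    (hz : (z : ℝ) ≤ (1 - κ) * n) :
    ((z ^ (d * a) * n ^ (d * (n - a)) : ℕ) : ℝ) ≤
      Real.exp (-(κ ^ 2 * d)) ^ n * (n : ℝ) ^ (d * n) := by
  have hn' : (0 : ℝ) < n := by exact_mod_cast hn
  have h1 : (z : ℝ) ≤ Real.exp (-κ) * n := by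
    have h2 := Real.add_one_le_exp (-κ)
    nlinarith
  push_cast
  have h3 : (z : ℝ) ^ (d * a) ≤ (Real.exp (-κ) * n) ^ (d * a) := by
    gcongr
  have h4 : (Real.exp (-κ)) ^ (d * a) ≤ Real.exp (-(κ ^ 2 * d)) ^ n := by
    rw [← Real.exp_nat_mul, ← Real.exp_nat_mul]
    apply Real.exp_le_exp.2
    push_cast
    have h5 : 0 ≤ κ * d := by positivity
    nlinarith
  have h6 : (n : ℝ) ^ (d * n) = (n : ℝ) ^ (d * a) * (n : ℝ) ^ (d * (n - a)) := by
    rw [← pow_add, ← Nat.mul_add, Nat.add_sub_cancel' ha2]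
  calc (z : ℝ) ^ (d * a) * (n : ℝ) ^ (d * (n - a))
      ≤ (Real.exp (-κ) * n) ^ (d * a) * (n : ℝ) ^ (d * (n - a)) := by gcongr
    _ = (Real.exp (-κ)) ^ (d * a) * (n : ℝ) ^ (d * n) := by rw [h6, mul_pow]; ring
    _ ≤ _ := by gcongr

open Classical in
theorem cnb_thm (h1 : CNAStmt) : CNBStmt := by
  intro n d κ hκ hκ1 hn
  have hsub : (Finset.univ.filter fun s : Fin n → Fin d → Fin n => Bad κ s) ⊆
      (Finset.univ.filter fun q : Finset (Fin n) × Finset (Fin n) =>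
        κ * n ≤ q.1.card ∧ (q.2.card : ℝ) ≤ (1 - κ) * n).biUnion fun q =>
        Finset.univ.filter fun s : Fin n → Fin d → Fin n => ∀ v ∈ q.1, ∀ j, s v j ∈ q.2 := by
    intro s hs
    rw [Finset.mem_filter] at hs
    obtain ⟨-, A, Z, hA, hZ, hAZ⟩ := hs
    rw [Finset.mem_biUnion]
    exact ⟨(A, Z), Finset.mem_filter.2 ⟨Finset.mem_univ _, hA, hZ⟩,
      Finset.mem_filter.2 ⟨Finset.mem_univ _, hAZ⟩⟩
  have hc : (Finset.univ.filter fun s : Fin n → Fin d → Fin n => Bad κ s).card ≤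
      ∑ q ∈ (Finset.univ.filter fun q : Finset (Fin n) × Finset (Fin n) =>
        κ * n ≤ q.1.card ∧ (q.2.card : ℝ) ≤ (1 - κ) * n),
        (Finset.univ.filter fun s : Fin n → Fin d → Fin n => ∀ v ∈ q.1, ∀ j, s v j ∈ q.2).card :=
    (Finset.card_le_card hsub).trans Finset.card_biUnion_le
  have hc2 : ((Finset.univ.filter fun s : Fin n → Fin d → Fin n => Bad κ s).card : ℝ) ≤
      ∑ q ∈ (Finset.univ.filter fun q : Finset (Fin n) × Finset (Fin n) =>
        κ * n ≤ q.1.card ∧ (q.2.card : ℝ) ≤ (1 - κ) * n),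
        (((Finset.univ.filter fun s : Fin n → Fin d → Fin n =>
          ∀ v ∈ q.1, ∀ j, s v j ∈ q.2).card : ℕ) : ℝ) := by
    exact_mod_cast hc
  have hterm : ∀ q ∈ (Finset.univ.filter fun q : Finset (Fin n) × Finset (Fin n) =>
        κ * n ≤ q.1.card ∧ (q.2.card : ℝ) ≤ (1 - κ) * n),
        (((Finset.univ.filter fun s : Fin n → Fin d → Fin n =>
          ∀ v ∈ q.1, ∀ j, s v j ∈ q.2).card : ℕ) : ℝ) ≤
        Real.exp (-(κ ^ 2 * d)) ^ n * (n : ℝ) ^ (d * n) := by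
    intro q hq
    rw [Finset.mem_filter] at hq
    have h2 := h1 n d q.1 q.2
    rw [h2]
    exact cnb_num n d _ _ κ hκ hn hq.2.1 (by
      have := Finset.card_le_univ q.1
      rwa [Fintype.card_fin] at this) hq.2.2
  have hcard : ((Finset.univ.filter fun q : Finset (Fin n) × Finset (Fin n) =>
        κ * n ≤ q.1.card ∧ (q.2.card : ℝ) ≤ (1 - κ) * n).card : ℝ) ≤ 4 ^ n := by
    have h2 : (Finset.univ.filter fun q : Finset (Fin n) × Finset (Fin n) =>
        κ * n ≤ q.1.card ∧ (q.2.card : ℝ) ≤ (1 - κ) * n).card ≤ 4 ^ n := by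
      refine (Finset.card_le_univ _).trans ?_
      rw [Fintype.card_prod, Fintype.card_finset, Fintype.card_fin, ← mul_pow]
      norm_num
    exact_mod_cast h2
  refine hc2.trans ((Finset.sum_le_sum hterm).trans ?_)
  rw [Finset.sum_const, nsmul_eq_mul, mul_pow, mul_assoc]
  gcongr

end Pool.RPG
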